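import Pool.Agent.V11229.Tds
import Pool.Agent.V11229.XCover
import Pool.Agent.V11229.CutCore

/-!
# Deciding equality of the total and the sub-total domination number is `NP`-complete
-/

namespace Pool.Agent.Results.MP_bfbf95_lc.TDSEqNPComplete

open Pool.Agent.NPC Pool.Agent.NPC.H632 Pool.Agent.V11229 Pool.Agent.V11229.Tds

/-- TDS-EQ: the graph has no isolated vertices, and its total domination number is equal to its
sub-total domination number. -/
def TDSEQ (X : FG) : Prop := (∀ v, ∃ u, X.G.Adj v u) ∧ gammaT X.G = subT X.G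

theorem tdseq_iff (X : FG) : TDSEQ X ↔ Cert X.G := eq_iff X.G

/-! ### Membership in `NP` -/

/-- degrees, from the matrix -/
def degM (M : LMat Bool) (i : ℕ) : ℕ := ((List.range M.n).filter (fun j => M.ent false i j)).length

/-- number of elements of the set -/
def cD (M : LMat Bool) (l : List Bool) : ℕ :=
  ((List.range M.n).filter (fun j => l.getD j false)).length

/-- excess over the threshold -/
def exc (M : LMat Bool) (t : ℕ) : ℕ := ((List.range M.n).map (fun i => degM M i - t)).sum

/-- The verifier. -/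
def ver (x : LMat Bool × (List Bool × ℕ)) : Bool :=
  (List.range x.1.n).all (fun i => (List.range x.1.n).any (fun j =>
    x.2.1.getD j false && x.1.ent false i j)) &&
  (decide (cD x.1 x.2.1 = 0) || decide ((cD x.1 x.2.1 - 1) * x.2.2 + exc x.1 x.2.2 < x.1.n))

theorem degM_poly {α : Type} [TEnc α] {M : α → LMat Bool} {i : α → ℕ} (hM : Poly M)
    (hi : Poly i) : Poly (fun a => degM (M a) (i a)) := by
  unfold degM
  exact Poly.cntRange (n := fun a => (M a).n) (p := fun a j => (M a).ent false (i a) j)
    (UPoly.lmat_n hM) (by fun_prop)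

theorem cD_poly {α : Type} [TEnc α] {M : α → LMat Bool} {l : α → List Bool} (hM : Poly M)
    (hl : Poly l) : Poly (fun a => cD (M a) (l a)) := by
  unfold cD
  exact Poly.cntRange (n := fun a => (M a).n) (p := fun a j => (l a).getD j false)
    (UPoly.lmat_n hM) (by fun_prop)

theorem exc_poly {α : Type} [TEnc α] {M : α → LMat Bool} {t : α → ℕ} (hM : Poly M)
    (ht : Poly t) : Poly (fun a => exc (M a) (t a)) := by
  unfold exc
  refine NPC.Poly.sum (NPC.Poly.map (F := fun a i => degM (M a) i - t a)
    (UPoly.range (UPoly.lmat_n hM)) ?_)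
  have := degM_poly (M := fun p : α × ℕ => M p.1) (i := fun p : α × ℕ => p.2) (by fun_prop)
    (by fun_prop)
  fun_prop

attribute [local fun_prop] degM_poly cD_poly exc_poly

theorem ver_poly : Poly ver := by
  unfold ver
  refine NPC.Poly.and ?_ (by fun_prop)
  refine Poly.allRange (n := fun x : LMat Bool × (List Bool × ℕ) => x.1.n)
    (p := fun x i => (List.range x.1.n).any (fun j => x.2.1.getD j false && x.1.ent false i j))
    (UPoly.lmat_n (by fun_prop)) ?_
  exact Poly.anyRange (n := fun x : (LMat Bool × (List Bool × ℕ)) × ℕ => x.1.1.n)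
    (p := fun x j => x.1.2.1.getD j false && x.1.1.ent false x.2 j)
    (UPoly.lmat_n (by fun_prop)) (by fun_prop)

theorem degM_eq (X : FG) (i : Fin X.n) : degM X.mat i = deg X.G i := by
  classical
  unfold degM deg
  rw [FG.mat_n, length_filter_range _ (fun j => X.G.Adj i j) (fun j => X.ent_iff i j),
    Set.ncard_eq_toFinset_card']
  congr 1
  ext u
  simp

theorem sum_map_range (n : ℕ) (f : ℕ → ℕ) : ((List.range n).map f).sum = ∑ i : Fin n, f i := by
  rw [Fin.sum_univ_eq_sum_range, ← List.sum_toFinset _ List.nodup_range]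
  refine Finset.sum_congr ?_ fun _ _ => rfl
  ext i; simp

theorem exc_eq (X : FG) (t : ℕ) : exc X.mat t = ∑ v, (deg X.G v - t) := by
  unfold exc
  rw [sum_map_range]
  exact Finset.sum_congr rfl fun i _ => by rw [degM_eq]

theorem cD_eq (X : FG) (l : List Bool) : cD X.mat l =
    (Finset.univ.filter (fun v : Fin X.n => l.getD v false = true)).card := by
  unfold cD
  rw [FG.mat_n]
  exact length_filter_range _ _ (fun _ => Iff.rfl)

theorem ver_iff (X : FG) (l : List Bool) (t : ℕ) : ver (X.mat, (l, t)) = true ↔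
    IsTDS X.G (Finset.univ.filter (fun v : Fin X.n => l.getD v false = true)) ∧
    ((Finset.univ.filter (fun v : Fin X.n => l.getD v false = true)).card = 0 ∨
      ((Finset.univ.filter (fun v : Fin X.n => l.getD v false = true)).card - 1) * t +
        ∑ v, (deg X.G v - t) < Fintype.card (Fin X.n)) := by
  simp only [ver, Bool.and_eq_true, List.all_eq_true, List.mem_range, List.any_eq_true,
    Bool.or_eq_true, decide_eq_true_eq, cD_eq, exc_eq, Fintype.card_fin, FG.mat_n]
  refine and_congr ?_ Iff.rfl
  unfold IsTDS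
  constructor
  · intro h v
    obtain ⟨j, hj, h1, h2⟩ := h v v.isLt
    exact ⟨⟨j, hj⟩, by simpa using h1, (X.ent_iff v ⟨j, hj⟩).1 h2⟩
  · intro h i hi
    obtain ⟨u, hu, h2⟩ := h ⟨i, hi⟩
    exact ⟨u, u.isLt, by simpa using hu, (X.ent_iff ⟨i, hi⟩ u).2 h2⟩

theorem deg_le (X : FG) (v : Fin X.n) : deg X.G v ≤ X.n := by
  unfold deg
  have := Set.ncard_le_card {u | X.G.Adj v u}
  simpa using this

/-- TDS-EQ is in `NP`. -/
theorem inNPP_tdseq : InNPP TDSEQ := by
  refine inNPP_FG' ver_poly (8 * Polynomial.X + 3) ?_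
  intro X
  rw [tdseq_iff]
  constructor
  · rintro ⟨D, hD, h⟩
    have hD2 : (Finset.univ.filter (fun v : Fin X.n => (indL (D : Set (Fin X.n))).getD v false =
        true)) = D := by
      ext v
      rw [Finset.mem_filter, indL_getD]
      simp
    have ht : ∃ t ≤ X.n, D.card = 0 ∨ (D.card - 1) * t + ∑ v, (deg X.G v - t) <
        Fintype.card (Fin X.n) := by
      rcases h with h | ⟨t, h⟩
      · exact ⟨0, Nat.zero_le _, Or.inl h⟩
      · rcases le_total t X.n with h1 | h1
        · exact ⟨t, h1, Or.inr h⟩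
        · refine ⟨X.n, le_refl _, Or.inr ?_⟩
          have h2 : ∑ v, (deg X.G v - X.n) = 0 := by
            apply Finset.sum_eq_zero
            intro v _
            have := deg_le X v
            omega
          rw [h2]
          have h3 : (D.card - 1) * X.n ≤ (D.card - 1) * t := Nat.mul_le_mul_left _ h1
          omega
    obtain ⟨t, ht1, ht2⟩ := ht
    refine ⟨(indL (D : Set (Fin X.n)), t), ?_, ?_⟩
    · have e1 := sz_indL (D : Set (Fin X.n))
      have e2 := sz_nat_le t
      have e3 : t.size ≤ t := Nat.size_le.2 Nat.lt_two_pow_self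
      have e4 := sz_mat_gt X.mat
      rw [FG.mat_n] at e4
      rw [sz_pair]
      simp only [Polynomial.eval_add, Polynomial.eval_mul, Polynomial.eval_X,
        Polynomial.eval_ofNat]
      omega
    · rw [ver_iff, hD2]
      exact ⟨hD, ht2⟩
  · rintro ⟨⟨l, t⟩, _, h⟩
    rw [ver_iff] at h
    exact ⟨_, h.1, h.2.imp (fun h => h) (fun h => ⟨t, h⟩)⟩

/-! ### The reduction from exact cover by 3-sets -/

section Red

open Finset

/-- labels of the vertices: `(0,0,0)` is the hub, `(1,i,0)` are the leaves, `(2,j,0)` the triples,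
`(3,e,i)` the copies of the elements -/
abbrev Lab : Type := ℕ × ℕ × ℕ

/-- the edges, in one direction -/
def adB (S : List (ℕ × ℕ × ℕ)) (x y : Lab) : Bool :=
  (decide (x.1 = 0) && (decide (y.1 = 1) || decide (y.1 = 2))) ||
  (decide (x.1 = 2) && (decide (y.1 = 3) && decide (y.2.1 ∈ el (S.getD x.2.1 (0, 0, 0)))))

/-- the list of the vertices -/
def vsL (m k : ℕ) : List Lab :=
  (0, 0, 0) :: (((List.range (3 * m + 2)).map (fun i => (1, i, 0)) ++
    (List.range m).map (fun j => (2, j, 0))) ++
    ((List.range k) ×ˢ (List.range m)).map (fun p => (3, p)))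

/-- the graph -/
def red (I : List (ℕ × ℕ × ℕ) × ℕ) : FG :=
  FG.ofList (vsL I.1.length (min (3 * I.2) (3 * I.1.length))) (adB I.1)

theorem red_poly : Poly red := by
  unfold red
  refine Poly.FG_ofList (ad := fun I : List (ℕ × ℕ × ℕ) × ℕ => adB I.1) ?_ ?_
  · unfold vsL
    have h1 : UPoly (fun I : List (ℕ × ℕ × ℕ) × ℕ => I.1.length) := UPoly.length (by fun_prop)
    have h2 : Poly (fun I : List (ℕ × ℕ × ℕ) × ℕ => List.range (3 * I.1.length + 2)) :=
      UPoly.range (UPoly.add (UPoly.mul (UPoly.const 3) h1) (UPoly.const 2))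
    have h3 : Poly (fun I : List (ℕ × ℕ × ℕ) × ℕ => List.range I.1.length) := UPoly.range h1
    have h4 : Poly (fun I : List (ℕ × ℕ × ℕ) × ℕ =>
        List.range (min (3 * I.2) (3 * I.1.length))) := by
      refine UPoly.range (UPoly.of_le (n := fun I => 3 * I.1.length) (by fun_prop)
        (UPoly.mul (UPoly.const 3) h1) (fun I => min_le_right _ _))
    fun_prop
  · unfold adB el
    fun_prop

variable (S : List (ℕ × ℕ × ℕ)) (q : ℕ)

/-- the vertices, as a type -/
abbrev VT : Type := Unit ⊕ (Fin (3 * S.length + 2) ⊕ (Fin S.length ⊕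
  (Fin (3 * q) × Fin S.length)))

/-- the labels -/
def lab : VT S q → Lab
  | Sum.inl _ => (0, 0, 0)
  | Sum.inr (Sum.inl i) => (1, i, 0)
  | Sum.inr (Sum.inr (Sum.inl j)) => (2, j, 0)
  | Sum.inr (Sum.inr (Sum.inr (e, i))) => (3, e, i)

theorem lab_injective : Function.Injective (lab S q) := by
  rintro (u | (i | (j | ⟨e, i⟩))) (u' | (i' | (j' | ⟨e', i'⟩))) h <;>
    simp [lab] at h ⊢
  · exact Fin.ext h
  · exact Fin.ext h
  · exact ⟨Fin.ext h.1, Fin.ext h.2⟩

theorem vsL_nodup (m k : ℕ) : (vsL m k).Nodup := by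
  unfold vsL
  rw [List.nodup_cons, List.nodup_append, List.nodup_append]
  refine ⟨?_, ⟨?_, ?_, ?_⟩, ?_, ?_⟩
  · simp
  · refine List.Nodup.map ?_ List.nodup_range
    intro a b h
    simpa using h
  · refine List.Nodup.map ?_ List.nodup_range
    intro a b h
    simpa using h
  · intro a ha b hb
    simp only [List.mem_map, List.mem_range] at ha hb
    obtain ⟨v, _, rfl⟩ := ha
    obtain ⟨w, _, rfl⟩ := hb
    simp
  · refine List.Nodup.map ?_ (List.Nodup.product List.nodup_range List.nodup_range)
    intro a b h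
    simpa using h
  · intro a ha b hb
    simp only [List.mem_append, List.mem_map, List.mem_range] at ha hb
    obtain ⟨w, _, rfl⟩ := hb
    rcases ha with ⟨v, _, rfl⟩ | ⟨v, _, rfl⟩ <;> simp

theorem mem_vsL (z : Lab) : z ∈ vsL S.length (3 * q) ↔ ∃ x : VT S q, lab S q x = z := by
  constructor
  · intro h
    unfold vsL at h
    simp only [List.mem_cons, List.mem_append, List.mem_map, List.mem_range] at h
    rcases h with h | (⟨i, hi, rfl⟩ | ⟨j, hj, rfl⟩) | ⟨⟨e, i⟩, h, rfl⟩
    · exact ⟨Sum.inl (), h.symm⟩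
    · exact ⟨Sum.inr (Sum.inl ⟨i, hi⟩), rfl⟩
    · exact ⟨Sum.inr (Sum.inr (Sum.inl ⟨j, hj⟩)), rfl⟩
    · obtain ⟨h1, h2⟩ := List.mem_product.1 h
      exact ⟨Sum.inr (Sum.inr (Sum.inr (⟨e, List.mem_range.1 h1⟩, ⟨i, List.mem_range.1 h2⟩))), rfl⟩
  · rintro ⟨x, rfl⟩
    unfold vsL
    simp only [List.mem_cons, List.mem_append, List.mem_map, List.mem_range]
    rcases x with u | (i | (j | ⟨e, i⟩))
    · left; rfl
    · right; left; left
      exact ⟨i, i.isLt, rfl⟩
    · right; left; right
      exact ⟨j, j.isLt, rfl⟩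
    · right; right
      exact ⟨(e, i), List.mem_product.2 ⟨List.mem_range.2 e.isLt, List.mem_range.2 i.isLt⟩, rfl⟩

/-- the graph on the vertex type -/
def HG : SimpleGraph (VT S q) where
  Adj x y := x ≠ y ∧ (adB S (lab S q x) (lab S q y) = true ∨ adB S (lab S q y) (lab S q x) = true)
  symm := ⟨fun _ _ h => ⟨h.1.symm, h.2.symm⟩⟩
  loopless := ⟨fun _ h => h.1 rfl⟩

variable {S q}

/-- the hub -/
abbrev hb : VT S q := Sum.inl ()
/-- the leaves -/
abbrev lf (i : Fin (3 * S.length + 2)) : VT S q := Sum.inr (Sum.inl i)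
/-- the triples -/
abbrev tr (j : Fin S.length) : VT S q := Sum.inr (Sum.inr (Sum.inl j))
/-- the elements -/
abbrev em (x : Fin (3 * q) × Fin S.length) : VT S q := Sum.inr (Sum.inr (Sum.inr x))

theorem a_hl (i) : (HG S q).Adj hb (lf i) := by simp [HG, adB, lab]
theorem a_ht (j) : (HG S q).Adj hb (tr j) := by simp [HG, adB, lab]
theorem a_hh (u) : ¬ (HG S q).Adj hb (Sum.inl u) := by simp [HG]
theorem a_he (x) : ¬ (HG S q).Adj hb (em x) := by simp [HG, adB, lab]
theorem a_ll (i i') : ¬ (HG S q).Adj (lf i) (lf i') := by simp [HG, adB, lab]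
theorem a_lt (i j) : ¬ (HG S q).Adj (lf i) (tr j) := by simp [HG, adB, lab]
theorem a_le (i x) : ¬ (HG S q).Adj (lf i) (em x) := by simp [HG, adB, lab]
theorem a_tt (i j) : ¬ (HG S q).Adj (tr i) (tr j) := by simp [HG, adB, lab]
theorem a_ee (x y) : ¬ (HG S q).Adj (em x) (em y) := by simp [HG, adB, lab]
theorem a_te (j x) : (HG S q).Adj (tr j) (em x) ↔ (x.1 : ℕ) ∈ el S[j] := by
  simp [HG, adB, lab, List.getD_eq_getElem?_getD]

theorem deg_sum (v : VT S q) : deg (HG S q) v =
    (Set.indicator {u | (HG S q).Adj v u} (fun _ => 1) hb) +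
    (∑ i, Set.indicator {u | (HG S q).Adj v u} (fun _ => 1) (lf i) +
    (∑ j, Set.indicator {u | (HG S q).Adj v u} (fun _ => 1) (tr j) +
    ∑ x, Set.indicator {u | (HG S q).Adj v u} (fun _ => 1) (em x))) := by
  classical
  have h1 : deg (HG S q) v = ∑ u, Set.indicator {u | (HG S q).Adj v u} (fun _ => 1) u := by
    unfold deg
    rw [Set.ncard_eq_toFinset_card']
    simp only [Set.indicator_apply]
    rw [← Finset.card_filter]
    congr 1
    ext u
    simp
  rw [h1, Fintype.sum_sum_type, Fintype.sum_sum_type, Fintype.sum_sum_type]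
  simp

theorem deg_hb : deg (HG S q) hb = 3 * S.length + 2 + S.length := by
  rw [deg_sum]
  simp [a_hl, a_ht, a_he]

theorem deg_lf (i) : deg (HG S q) (lf i) = 1 := by
  rw [deg_sum]
  simp [a_ll, a_lt, a_le, (a_hl i).symm]

theorem card_el (h : PrX S q) (j : Fin S.length) :
    (Finset.univ.filter (fun e : Fin (3 * q) => (e : ℕ) ∈ el S[j])).card = 3 := by
  classical
  have h1 := h.nd S[j] (List.getElem_mem _)
  have h2 := h.lt S[j] (List.getElem_mem _)
  have h3 : (el S[j]).toFinset.card = 3 := by
    rw [List.toFinset_card_of_nodup h1]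
    rfl
  have h4 : (el S[j]).toFinset = (Finset.univ.filter (fun e : Fin (3 * q) =>
      (e : ℕ) ∈ el S[j])).image (fun e : Fin (3 * q) => (e : ℕ)) := by
    ext b
    simp only [List.mem_toFinset, Finset.mem_image, Finset.mem_filter, Finset.mem_univ, true_and]
    constructor
    · intro hb
      exact ⟨⟨b, h2 b hb⟩, hb, rfl⟩
    · rintro ⟨e, he, rfl⟩
      exact he
  rw [h4, Finset.card_image_of_injective _ Fin.val_injective] at h3
  exact h3

theorem deg_tr (h : PrX S q) (j) : deg (HG S q) (tr j) = 3 * S.length + 1 := by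
  classical
  rw [deg_sum]
  have h1 := card_el h j
  have h2 : ∑ x : Fin (3 * q) × Fin S.length, Set.indicator {u | (HG S q).Adj (tr j) u}
      (fun _ => 1) (em x) = 3 * S.length := by
    rw [Fintype.sum_prod_type]
    simp only [Set.indicator_apply, Set.mem_ofPred_eq, a_te, Finset.sum_const, Finset.card_univ,
      Fintype.card_fin, smul_eq_mul]
    rw [← Finset.mul_sum, ← Finset.card_filter, h1, mul_comm]
  rw [h2]
  have h3 : ∀ i, ¬ (HG S q).Adj (tr j) (lf i) := fun i hi => a_lt i j hi.symm
  have h4 : (HG S q).Adj (tr j) hb := (a_ht j).symm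
  simp only [Set.indicator_apply, Set.mem_ofPred_eq, a_tt, h3, h4, if_true, if_false,
    Finset.sum_const_zero]
  omega

theorem deg_em (x) : deg (HG S q) (em x) ≤ S.length := by
  classical
  rw [deg_sum]
  have h1 : ∑ j : Fin S.length, Set.indicator {u | (HG S q).Adj (em x) u} (fun _ => 1) (tr j) ≤
      S.length := by
    refine (Finset.sum_le_card_nsmul _ _ 1 fun j _ => ?_).trans (by simp)
    rw [Set.indicator_apply]
    split_ifs <;> omega
  have h2 : ∀ i, ¬ (HG S q).Adj (em x) (lf i) := fun i hi => a_le i x hi.symm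
  have h3 : ¬ (HG S q).Adj (em x) hb := fun hi => a_he x hi.symm
  simp only [Set.indicator_apply, Set.mem_ofPred_eq, h2, h3, a_ee, if_false,
    Finset.sum_const_zero] at h1 ⊢
  omega

/-- Correctness of the reduction. -/
theorem core (h : PrX S q) : Cert (HG S q) ↔
    ∃ C : Finset (Fin S.length), C.card ≤ q ∧ ∀ e < 3 * q, ∃ i ∈ C, e ∈ el S[i] := by
  classical
  have hq := h.q_pos
  have hqm := h.q_le
  have hcard : Fintype.card (VT S q) =
      1 + (3 * S.length + 2 + (S.length + 3 * q * S.length)) := by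
    simp [Fintype.card_sum, Fintype.card_prod]
  constructor
  · rintro ⟨D, hD, hD2⟩
    have hh : (hb : VT S q) ∈ D := by
      obtain ⟨u, hu, huv⟩ := hD (lf ⟨0, by omega⟩)
      rcases u with u | (i | (j | x))
      · exact hu
      · exact absurd huv (a_ll _ _)
      · exact absurd huv (a_lt _ _)
      · exact absurd huv (a_le _ _)
    refine ⟨Finset.univ.filter (fun j => tr j ∈ D), ?_, ?_⟩
    · -- the size
      have h1 : (Finset.univ.filter (fun j => (tr j : VT S q) ∈ D)).card + 1 ≤ D.card := by
        have h2 : insert (hb : VT S q) ((Finset.univ.filter (fun j => (tr j : VT S q) ∈ D)).image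
            (fun j => (tr j : VT S q))) ⊆ D := by
          intro x hx
          rw [Finset.mem_insert, Finset.mem_image] at hx
          rcases hx with rfl | ⟨j, hj, rfl⟩
          · exact hh
          · exact (Finset.mem_filter.1 hj).2
        have h3 := Finset.card_le_card h2
        rw [Finset.card_insert_of_notMem (by simp), Finset.card_image_of_injective _
          (fun a b hab => Sum.inl_injective (Sum.inr_injective (Sum.inr_injective hab)))] at h3
        exact h3
      by_contra hc
      push Not at hc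
      rcases hD2 with hD2 | ⟨t, ht⟩
      · omega
      · -- a set of `q + 1` vertices with a large degree sum
        obtain ⟨Q, hQ⟩ : ∃ Q : Finset (Fin S.length), Q.card = q := by
          obtain ⟨Q, _, hQ⟩ := Finset.exists_subset_card_eq
            (s := (Finset.univ : Finset (Fin S.length))) (n := q) (by simpa using hqm)
          exact ⟨Q, hQ⟩
        let T : Finset (VT S q) := insert hb (Q.image (fun j => (tr j : VT S q)))
        have hnot : (hb : VT S q) ∉ Q.image (fun j => (tr j : VT S q)) := by simp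
        have hinj : Set.InjOn (fun j => (tr j : VT S q)) Q := fun a _ b _ hab =>
          Sum.inl_injective (Sum.inr_injective (Sum.inr_injective hab))
        have hT : T.card = q + 1 := by
          rw [Finset.card_insert_of_notMem hnot, Finset.card_image_of_injOn hinj, hQ]
        have hTs : ∑ v ∈ T, deg (HG S q) v = 3 * S.length + 2 + S.length +
            q * (3 * S.length + 1) := by
          rw [Finset.sum_insert hnot, Finset.sum_image hinj, deg_hb,
            Finset.sum_congr rfl (fun j _ => deg_tr h j), Finset.sum_const, hQ, smul_eq_mul]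
        have h4 := sum_le_thr (deg (HG S q)) T t
        rw [hT, hTs] at h4
        have h5 : (q + 1) * t ≤ (D.card - 1) * t := Nat.mul_le_mul_right _ (by omega)
        rw [hcard] at ht
        nlinarith
    · intro e he
      obtain ⟨u, hu, huv⟩ := hD (em (⟨e, he⟩, ⟨0, by omega⟩))
      rcases u with u | (i | (j | x))
      · exact absurd huv.symm (a_he _)
      · exact absurd huv.symm (a_le _ _)
      · exact ⟨j, by simpa using hu, (a_te _ _).1 huv.symm⟩
      · exact absurd huv (a_ee _ _)
  · rintro ⟨C, hC, hcov⟩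
    have hnot : (hb : VT S q) ∉ C.image (fun j => (tr j : VT S q)) := by simp
    have hinj : Set.InjOn (fun j => (tr j : VT S q)) C := fun a _ b _ hab =>
      Sum.inl_injective (Sum.inr_injective (Sum.inr_injective hab))
    refine ⟨insert hb (C.image (fun j => (tr j : VT S q))), ?_, Or.inr ⟨3 * S.length + 1, ?_⟩⟩
    · intro v
      rcases v with u | (i | (j | x))
      · obtain ⟨j, hj, _⟩ := hcov 0 (by omega)
        exact ⟨tr j, Finset.mem_insert_of_mem (Finset.mem_image_of_mem _ hj), a_ht j⟩
      · exact ⟨hb, Finset.mem_insert_self _ _, (a_hl i).symm⟩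
      · exact ⟨hb, Finset.mem_insert_self _ _, (a_ht j).symm⟩
      · obtain ⟨j, hj, hx⟩ := hcov x.1 x.1.isLt
        exact ⟨tr j, Finset.mem_insert_of_mem (Finset.mem_image_of_mem _ hj),
          ((a_te j x).2 hx).symm⟩
    · rw [Finset.card_insert_of_notMem hnot, Finset.card_image_of_injOn hinj,
        Nat.add_sub_cancel, Fintype.sum_sum_type, Fintype.sum_sum_type, Fintype.sum_sum_type]
      have z1 : ∑ u : Unit, (deg (HG S q) (Sum.inl u) - (3 * S.length + 1)) = 1 + S.length := by
        rw [Fintype.sum_unique]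
        have := deg_hb (S := S) (q := q)
        have e : (Sum.inl default : VT S q) = hb := rfl
        rw [e, this]
        omega
      have z2 : ∑ i, (deg (HG S q) (lf i) - (3 * S.length + 1)) = 0 := by
        apply Finset.sum_eq_zero
        intro i _
        rw [deg_lf]
        omega
      have z3 : ∑ j, (deg (HG S q) (tr j) - (3 * S.length + 1)) = 0 := by
        apply Finset.sum_eq_zero
        intro j _
        rw [deg_tr h]
        omega
      have z4 : ∑ x, (deg (HG S q) (em x) - (3 * S.length + 1)) = 0 := by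
        apply Finset.sum_eq_zero
        intro x _
        have := deg_em (S := S) (q := q) x
        omega
      rw [z1, z2, z3, z4, hcard]
      have : C.card * (3 * S.length + 1) ≤ q * (3 * S.length + 1) := Nat.mul_le_mul_right _ hC
      nlinarith

theorem red_iff (I : List (ℕ × ℕ × ℕ) × ℕ) (h : PrX I.1 I.2) : X3C I ↔ TDSEQ (red I) := by
  obtain ⟨S, q⟩ := I
  rw [x3c_iff_cover, tdseq_iff, ← core h]
  have hmin : min (3 * q) (3 * S.length) = 3 * q := min_eq_left (Nat.mul_le_mul_left _ h.q_le)
  obtain ⟨e⟩ := FG.ofList_iso (vsL S.length (3 * q)) (vsL_nodup _ _) (lab S q)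
    (lab_injective S q) (mem_vsL S q) (adB S) (HG S q) (fun _ _ => Iff.rfl)
  have h2 := Cert.iso_iff e
  have h3 : red (S, q) = FG.ofList (vsL S.length (3 * q)) (adB S) := by
    unfold red
    simp only [hmin]
  rw [h3]
  exact h2.symm

theorem npHard_tdseq : NPHardP TDSEQ :=
  (hardPr_cover.trans (Pr' := fun _ => True) red_poly (fun _ _ => trivial) red_iff).toHardI.toNPHardP

end Red

/-- **TDS-EQ is `NP`-complete.** -/
theorem result : InNPP TDSEQ ∧ NPHardP TDSEQ := ⟨inNPP_tdseq, npHard_tdseq⟩

end Pool.Agent.Results.MP_bfbf95_lc.TDSEqNPComplete
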